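import Pool.Agent.Work.MP_11690a_gt.Conn

/-!
The connected sum of complex projective 3-space and the 6-torus has a symplectic structure.

The manifold is obtained from the torus `ℂ³ / ℤ[i]³` by replacing the origin by the projective plane of
the lines through it. It is a connected sum of the torus and of `CP3`, because complex conjugation in
the coordinate `s` of `[z : s]` turns the normal direction around.
-/

namespace Pool.Agent.Results.MP_11690a_gt.SymplecticConnectedSum

open Pool.Agent.Work.MP_11690a_gt

/-- There is a closed smooth 6-manifold `M` which is a connected sum of `CP3` and of the torus `T6`
(see `IsConnSum`) and which carries a symplectic structure. -/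
theorem result : ∃ (M : Type) (_ : TopologicalSpace M) (_ : ChartedSpace C3 M),
    ClosedManifold C3 M ∧ (∃ (f : CP3 → M) (g : T6 → M), IsConnSum f g) ∧ HasSymplectic C3 M :=
  main

end Pool.Agent.Results.MP_11690a_gt.SymplecticConnectedSum
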